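import Pool.Agent.J4.H16.TN.Main

/-!
MP_2f9829_co, Q1: list edge colourings of arbitrary finite graphs from arbitrarily many different lists,
where every colour of a list is in at most one neighbouring list.

Let `G` be ANY finite graph which has a proper edge colouring with `D` colours (for instance `D = χ'(G)`).
Let the edges of `G` be divided in any way into classes, and let `X x` be a list of at least `D` colours
for the class `x`; all edges of the class get this list. (There is no loss of generality: each edge can
be a class of its own, and all edges with the same list can be one class.) Two classes are neighbours
if some edge in one of them is adjacent to some edge in the other.

**Suppose that `D` is even, and that for every class `x` and every colour `c` in its list, at most one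
neighbouring class has the colour `c` in its list. Then `G` has a proper edge colouring from the lists.**
For instance, this is the case if every colour is in at most two of the different lists (then one can
take all edges with the same list as a class; there can be arbitrarily many lists, and their
overlaps can form an arbitrary multigraph). But a colour can also occur in many lists, if they are not
near each other.

For odd `D` the same is true, if one can choose a colour `ρ x` from every list such that for neighbouring
classes `x` and `y` the colour `ρ x` is not in the list of `y` or `ρ y = ρ x`; for instance if every list
has a colour which is not in the lists of the neighbouring classes.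

The proof. The colours in the lists of the classes are the darts of a multigraph on the classes: the
colour `c` in the lists of two neighbouring classes gives an edge which joins them, and the other ones
are half-edges. By Petersen's theorem, for multigraphs with half-edges, it can be divided into `D / 2`
factors of degree two (there is an orientation with equal in- and outdegrees, since the union of two
matchings is bipartite, and then one can use König's theorem). So every list is divided into pairs of
colours, and the pairs with different numbers are disjoint for adjacent edges. The pairs with the
number `k` are used for the edges with the colours `2 k` and `2 k + 1` in the given edge colouring with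
`D` colours, by Galvin's theorem; here again the union of two matchings is bipartite.
-/

set_option autoImplicit false

namespace Pool.Agent.Results.MP_2f9829_co.ColoursInTwoClasses

/-- There is a proper edge colouring of `G` from the lists `L`. -/
def ListColourable {V : Type} (G : SimpleGraph V) (L : G.edgeSet → Finset ℕ) : Prop :=
  ∃ f : G.edgeSet → ℕ, (∀ e, f e ∈ L e) ∧ ∀ e e', G.lineGraph.Adj e e' → f e ≠ f e'

/-- The classes `x` and `y` of edges are neighbours: they are different, and some edge in the class `x` is
adjacent to some edge in the class `y`. (The class of the edge `e` is `t e`.) -/
def Neighbours {V ι : Type} (G : SimpleGraph V) (t : G.edgeSet → ι) (x y : ι) : Prop :=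
  x ≠ y ∧ ∃ e e', G.lineGraph.Adj e e' ∧ t e = x ∧ t e' = y

/-- Let `G` be a finite graph with a proper edge colouring with `D` colours, `t e` the class of the edge
`e`, and `X x` the list of the edges in the class `x`, with at least `D` colours. Suppose that for every
class `x` and every colour `c` in its list at most one neighbouring class has `c` in its list; for odd `D`
suppose also that there are colours `ρ x` in the lists, with `ρ y = ρ x` for all neighbours `y` of `x`
which have `ρ x` in their list. Then there is a proper edge colouring from the lists. -/
theorem result {V ι : Type} [Finite V] (G : SimpleGraph V) (D : ℕ) (hG : G.lineGraph.Colorable D)
    (t : G.edgeSet → ι) (X : ι → Finset ℕ) (hX : ∀ e, D ≤ (X (t e)).card)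
    (h : ∀ x y z, Neighbours G t x y → Neighbours G t x z → ∀ c ∈ X x, c ∈ X y → c ∈ X z → y = z)
    (hD : Even D ∨ ∃ ρ : ι → ℕ, (∀ e, ρ (t e) ∈ X (t e)) ∧
      ∀ x y, Neighbours G t x y → ρ x ∈ X y → ρ y = ρ x) :
    ListColourable G fun e => X (t e) :=
  Pool.Agent.J4.H16.TN.main G D hG t X hX h hD

end Pool.Agent.Results.MP_2f9829_co.ColoursInTwoClasses
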