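import Pool.Agent.J4.H80.LL.E

/-!
# The list edge-colouring conjecture for locally diverse lists
-/

set_option autoImplicit false

namespace Pool.Agent.Results.MP_2f9829_co.DiverseLists

/-- Let the edges of `G` be divided into `k` classes by `c` and let `L` be lists of colours. These
are the colours of the list of `e` that do not belong to the list of any edge of class `j` which is
equal to `e` or shares an end with `e`. (If `c` is a proper edge colouring, there are at most two
such edges.) -/
def Free {V : Type} {G : SimpleGraph V} {k C : ℕ} (c : G.edgeSet → Fin k)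
    (L : G.edgeSet → Finset (Fin C)) (e : G.edgeSet) (j : Fin k) : Set (Fin C) :=
  {a | a ∈ L e ∧ ∀ f : G.edgeSet, c f = j → (f = e ∨ G.lineGraph.Adj e f) → a ∉ L f}

open Classical in
/-- There is an absolute constant `K` such that the following holds for every finite simple graph
`G`, with `n` vertices. Let `c` be a proper colouring of its edges with `k` colours and let `L` be
arbitrary lists of colours from a palette with `C ≥ k` colours. Let `β ≥ 0` be such that the
numbers of colours of the palette missing from the lists of the edges at `v` have sum at most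
`C β`, for every vertex `v`. If every edge `e` satisfies

  `C (β + K (√(β log n) + log n)) ≤ (C - k) |L e| + ∑ j, |Free c L e j|`,

then the edges of `G` can be properly coloured from the lists `L`.

For the lists of the list edge-colouring conjecture, with `k = χ'(G)` colours each, one can take
`β = k (C - k) / C ≤ min k (C - k)`, and the condition becomes
`∑ j, |Free c L e j| ≥ K C (√(β log n) + log n)`: the edges of the class `j` at `e` miss on average
(over `j`) about `K (C / k) √(β log n)` of the `k` colours of `L e`. For lists with at least
`k + K (√((C - k) log n) + log n)` colours each (with another constant `K`) nothing else is needed.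
-/
theorem result : ∃ K : ℝ, ∀ (V : Type) [Fintype V] (G : SimpleGraph V) (k C : ℕ), k ≤ C →
    ∀ c : G.edgeSet → Fin k, (∀ e e', G.lineGraph.Adj e e' → c e ≠ c e') →
    ∀ (L : G.edgeSet → Finset (Fin C)) (β : ℝ), 0 ≤ β →
    (∀ v, ∑ e : G.edgeSet with v ∈ e.1, ((C : ℝ) - (L e).card) ≤ C * β) →
    (∀ e, (C : ℝ) * (β + K * (Real.sqrt (β * Real.log (Fintype.card V)) +
      Real.log (Fintype.card V))) ≤
        ((C : ℝ) - k) * (L e).card + ∑ j : Fin k, ((Free c L e j).ncard : ℝ)) →
    ∃ f : G.edgeSet → Fin C, (∀ e, f e ∈ L e) ∧ ∀ e e', G.lineGraph.Adj e e' → f e ≠ f e' := by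
  obtain ⟨K, hK, hmain⟩ := Pool.Agent.J4.H80.LL.main_gen
  refine ⟨K, fun V _ G k C hkC c hc L β hβ h1 h2 => ?_⟩
  exact hmain V G k C hkC c hc L β hβ h1 h2

end Pool.Agent.Results.MP_2f9829_co.DiverseLists
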