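import Pool.Agent.J4.H16.TN.Parts

/-!
MP_2f9829_co, Q1: list edge colourings of arbitrary finite graphs from few different lists, and from lists
composed of few different sets.

Let `G` be ANY finite graph, with a list `L e` of colours for every edge `e`. A division of the lists into
parts consists of sets `P j e ⊆ L e` with at least `d j` colours, where `∑ d j` is at least the chromatic
index of `G`, such that `P j e` and `P j' e'` are disjoint for adjacent edges `e`, `e'` and `j ≠ j'`. (For
example, one part, `P e = L e`, where all lists have at least `d = χ'(G)` colours; or the palette is divided
into blocks, and `P j e` is the intersection of `L e` with the block `j`.)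

* **If for each `j` the sets `P j e` (for all edges `e`) are at most three different sets, or `d j ≤ 2`, then `G`
  has a proper edge colouring from the lists.** In particular the list edge-colouring conjecture is true
  for all graphs and all list assignments with at most three different lists. With `m` parts there can
  be `3 ^ m` different lists, and arbitrarily many if the `d j` are at most two.
* For every number `K`, in place of three, the statement (`PartLists K`, for all finite graphs, without bounds
  for the degrees, for the number of the parts and for the `d j`) is equivalent to its case for finitely
  many list systems `X 0, …, X (K - 1)` (one part), with `K` lists of a size `d` for the graphs with a proper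
  edge colouring with `d` colours. So for the graphs of arbitrary chromatic index and at most `K` different
  lists of arbitrary sizes it is enough to know the conjecture for the graphs of chromatic index at
  most `D(K)`.
* For `K = 4` only two problems are left, about the edge colourings of the graphs with a proper edge
  colouring with three colours (essentially, the cubic graphs of class one), where each edge has one of
  the four triples from a palette of four colours, respectively one of the lists `{0, 1, 2}`, `{0, 3, 4}`,
  `{1, 3, 4}`, `{2, 3, 4}`.

The proof. If the sets `X i ∩ P` all have `d` elements, and all `X i` have `D`, then a solution for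
`d` and the lists `X i ∩ P` and a solution for `D - d` and the lists `X i \ P` give a solution for `D` and
`X`: divide the colour classes of the given edge colouring with `D` colours. The colours in the lists,
classified by the set of the lists they belong to, form a regular multihypergraph on `K` vertices; by
Dickson's lemma there are only finitely many indecomposable ones. The pieces of degree one are trivial,
and the pieces of degree two are solved by the theorem of Galvin, since the union of two matchings is
bipartite. For three vertices the degrees of the indecomposable regular multihypergraphs are one and
two, for four vertices there are five (two up to permutations) of degree three.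
-/

set_option autoImplicit false

namespace Pool.Agent.Results.MP_2f9829_co.FewLists

/-- There is a proper edge colouring of `G` from the lists `L`. -/
def ListColourable {V : Type} (G : SimpleGraph V) (L : G.edgeSet → Finset ℕ) : Prop :=
  ∃ f : G.edgeSet → ℕ, (∀ e, f e ∈ L e) ∧ ∀ e e', G.lineGraph.Adj e e' → f e ≠ f e'

/-- Every finite graph with a proper edge colouring with `D` colours has a proper edge colouring from
lists each of which is one of the lists `X 0, …, X (K - 1)`, however they are distributed. -/
def Solvable {K : ℕ} (D : ℕ) (X : Fin K → Finset ℕ) : Prop :=
  ∀ (V : Type) [Finite V] (G : SimpleGraph V), G.lineGraph.Colorable D →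
    ∀ t : G.edgeSet → Fin K, ListColourable G fun e => X (t e)

/-- Suppose that `P j e ⊆ L e`, for `j < m`, are sets with at least `d j` colours, such that `P j e` and
`P j' e'` are disjoint for adjacent edges `e`, `e'` and `j ≠ j'`, and that `G` has a proper edge colouring
with `∑ d j` colours. Suppose that for each `j`, `d j ≤ 2` or the sets `P j e` are at most `K` different
sets. Then there is a proper edge colouring from the lists `L e`.

For `m = 1`, `P j e = L e`: the list edge-colouring conjecture for at most `K` different lists. -/
def PartLists (K : ℕ) : Prop :=
  ∀ (V : Type) [Finite V] (G : SimpleGraph V) (L : G.edgeSet → Finset ℕ) (m : ℕ) (d : Fin m → ℕ)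
    (P : Fin m → G.edgeSet → Finset ℕ), G.lineGraph.Colorable (∑ j, d j) →
    (∀ j e, P j e ⊆ L e ∧ d j ≤ (P j e).card) →
    (∀ j j' e e', j ≠ j' → G.lineGraph.Adj e e' → Disjoint (P j e) (P j' e')) →
    (∀ j, d j ≤ 2 ∨ (Set.range (P j)).ncard ≤ K) → ListColourable G L

/-- The four triples of colours from a palette of four colours. -/
def triples : Fin 4 → Finset ℕ := ![{0, 1, 2}, {0, 1, 3}, {0, 2, 3}, {1, 2, 3}]

/-- Three lists with two common colours, and the list of their three other colours. -/
def starLists : Fin 4 → Finset ℕ := ![{0, 1, 2}, {0, 3, 4}, {1, 3, 4}, {2, 3, 4}]

/-- For every `K`, the list edge-colouring conjecture for at most `K` different lists, or lists divided into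
parts with at most `K` different sets, is equivalent to its case for the finitely many list systems in
`𝓢 K`. There are none for `K = 3`, and for `K = 4` these are two list systems for the graphs with a proper
edge colouring with three colours. -/
theorem result : ∃ 𝓢 : (K : ℕ) → Finset (ℕ × (Fin K → Finset ℕ)),
    𝓢 3 = ∅ ∧ 𝓢 4 = {(3, triples), (3, starLists)} ∧
    ∀ K, (∀ p ∈ 𝓢 K, ∀ i, (p.2 i).card = p.1) ∧
      (PartLists K ↔ ∀ p ∈ 𝓢 K, Solvable p.1 p.2) :=
  Pool.Agent.J4.H16.TN.main_parts

end Pool.Agent.Results.MP_2f9829_co.FewLists
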