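import Pool.Agent.J4.H72.LEC.Main

/-!
# The list edge-colouring conjecture is equivalent to its case of sparse defects

The conjecture for the graphs with chromatic index at most `D` and lists from a palette of `P`
colours is equivalent to its case of the following lists and graphs, where `g` is any number: the
graph is `D`-regular with a proper edge colouring with `D` colours, it has no cycle of length at
most `g`, and there is a set `S` of vertices at mutual distances greater than `g` such that

* without `S` the graph is bipartite;
* at each vertex outside `S` all the edges have the same list.

If `S` is empty then the lists are constant on the components and there is nothing to prove; so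
the whole difficulty of the conjecture is in isolated defects of the lists, in graphs which look
locally like trees and are bipartite (Galvin's case) up to vertices as far apart as one likes.

Proof. Every edge `x y` is replaced by a wire, made of two copies of a bipartite `D`-regular graph
of girth greater than `g` without one edge, with the list of `x y` everywhere. As the colour classes
of the copies are perfect matchings (of a graph of even order) up to the two edges which leave it,
these two edges have the same colour in each colouring from the lists (parity lemma). The graph of
large girth is the group of permutations of a ball in the `D`-regular tree.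
-/

set_option autoImplicit false

namespace Pool.Agent.Results.MP_2f9829_co.SparseDefects

/-- There is a proper edge colouring of `G` from the lists `L`. -/
def ListColourable {V : Type} (G : SimpleGraph V) (L : G.edgeSet → Finset ℕ) : Prop :=
  ∃ f : G.edgeSet → ℕ, (∀ e, f e ∈ L e) ∧ ∀ e e', G.lineGraph.Adj e e' → f e ≠ f e'

/-- The conjecture for `D` colours and a palette of `P` colours: every finite graph with a proper
edge colouring with `D` colours has a proper edge colouring from all lists of at least `D` colours
of `{0, …, P - 1}`. -/
def EdgeChoosable (D P : ℕ) : Prop :=
  ∀ (V : Type) [Fintype V] (G : SimpleGraph V), G.lineGraph.Colorable D →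
    ∀ L : G.edgeSet → Finset ℕ, (∀ e, D ≤ (L e).card) → (∀ e, L e ⊆ Finset.range P) →
      ListColourable G L

/-- The case of sparse defects: `G` is `D`-regular with a proper edge colouring with `D` colours and
girth greater than `g`; `S` is a set of vertices such that different elements of `S` have distance
greater than `g`, and `G` without `S` is bipartite; the lists have `D` elements and are the same for
all edges at a vertex outside `S`. -/
def SparseDefects (D g P : ℕ) : Prop :=
  ∀ (V : Type) [Fintype V] (G : SimpleGraph V) (S : Set V) (L : G.edgeSet → Finset ℕ),
    G.lineGraph.Colorable D →
    (∀ v, (G.neighborSet v).ncard = D) →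
    (g : ℕ∞) < G.egirth →
    (∀ x ∈ S, ∀ y ∈ S, x ≠ y → ∀ p : G.Walk x y, g < p.length) →
    (∃ side : V → Bool, ∀ x ∉ S, ∀ y ∉ S, G.Adj x y → side x ≠ side y) →
    (∀ e, (L e).card = D) →
    (∀ e, L e ⊆ Finset.range P) →
    (∀ x ∉ S, ∀ e e' : G.edgeSet, x ∈ (e : Sym2 V) → x ∈ (e' : Sym2 V) → L e = L e') →
    ListColourable G L

/-- **The list edge-colouring conjecture is equivalent to its case of sparse defects.**
(1) For all numbers `D` of colours, palettes of `P ≥ D` colours and all `g`, the conjecture for `D`
colours from this palette is equivalent to its case of sparse defects.
(2) The conjecture (in the form of the frozen statement) is equivalent to: for every `D` there is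
some `g` such that the case of sparse defects holds for `D` colours and girth greater than `g`. -/
theorem result :
    (∀ D g P : ℕ, D ≤ P → (EdgeChoosable D P ↔ SparseDefects D g P)) ∧
    ((∀ (V : Type) [Fintype V] (G : SimpleGraph V) (k : ℕ), G.lineGraph.Colorable k ↔
      ∀ L : G.edgeSet → Finset ℕ, (∀ e, k ≤ (L e).card) →
        ∃ f : G.edgeSet → ℕ, (∀ e, f e ∈ L e) ∧ ∀ e e', G.lineGraph.Adj e e' → f e ≠ f e') ↔
      ∀ D, ∃ g, ∀ P, SparseDefects D g P) :=
  ⟨Pool.Agent.J4.H72.LEC.choosable_iff, Pool.Agent.J4.H72.LEC.conjecture_iff⟩

end Pool.Agent.Results.MP_2f9829_co.SparseDefects
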